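import Mathlib
import Pool.Agent.H11.TW.All

set_option autoImplicit false

namespace Pool.Agent.Results.MP_f4d5ac_nt.OrderOfMagnitude

open Polynomial Filter

/-- the squarefree `d`, `|d| < B`, such that `d y² = f(x)` has a rational point with `y ≠ 0` -/
def Twists (f : ℤ[X]) (B : ℝ) : Set ℤ :=
  {d : ℤ | Squarefree d ∧ |(d : ℝ)| < B ∧ ∃ x y : ℚ, y ≠ 0 ∧ (d : ℚ) * y ^ 2 = aeval x f}

/-- Let `f ∈ ℤ[x]` be separable of degree `≥ 5`, `g = ⌊(deg f - 1)/2⌋`, and let `f` have odd degree or be reducible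
over `ℚ`. Then the number of the squarefree `d`, `|d| < B`, such that `d y² = f(x)` has a nontrivial rational point is
at least `c B^(1/(g+1))` for all large `B`. -/
theorem result (f : ℤ[X]) (hf : Squarefree (f.map (Int.castRingHom ℚ))) (h5 : 5 ≤ f.natDegree)
    (hr : Odd f.natDegree ∨ ¬ Irreducible (f.map (Int.castRingHom ℚ))) :
    ∃ c : ℝ, 0 < c ∧ ∀ᶠ B : ℝ in atTop,
      c * B ^ ((1 : ℝ) / (((f.natDegree - 1) / 2 : ℕ) + 1)) ≤ ((Twists f B).ncard : ℝ) :=
  Pool.Agent.H11.TW.main_thm f hf h5 hr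

end Pool.Agent.Results.MP_f4d5ac_nt.OrderOfMagnitude
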